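import Mathlib
import Pool.Agent.H.MP_c850b7_lc.Main

set_option autoImplicit false

open FirstOrder FirstOrder.Language

namespace Pool.Agent.Results.MP_c850b7_lc.Counter

open Pool.Agent.H.MP_c850b7_lc

theorem result : ∃ (L : FirstOrder.Language.{0, 0}) (_ : L.IsAlgebraic) (A B : Type)
    (_ : L.Structure A) (_ : L.Structure B), Nonempty A ∧ Nonempty B ∧
    Structure.FG L A ∧ Structure.FG L B ∧ Isotypic L A B ∧ IsEmpty (L.Equiv A B) := by
  refine ⟨LL, inferInstance, H 0, H 1, inferInstance, inferInstance,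
    ⟨⟨(0, []), le_refl (0 : ℤ)⟩⟩, ⟨⟨(1, []), le_refl (1 : ℤ)⟩⟩, fg 0, fg 1, fun n => ⟨fun a => ?_,
    fun b => ?_⟩, not_iso⟩
  · obtain ⟨b, hb⟩ := into 1 (fun i => (a i : P))
    exact ⟨b, fun φ => (elem 0 a φ).trans (hb φ).symm⟩
  · obtain ⟨a, ha⟩ := into 0 (fun i => (b i : P))
    exact ⟨a, fun φ => (ha φ).trans (elem 1 b φ).symm⟩

end Pool.Agent.Results.MP_c850b7_lc.Counter
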